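import Mathlib
import Pool.Agent.helper14.NDDefs
import Pool.Agent.helper14.NDCriterion

/-!
# A combinatorial criterion in all ranks, with multiplicities

Let `f = ∏ (linear form) ^ mu` be a real central arrangement with multiplicities and let `X` be a
dense edge of rank `r` and total multiplicity `d`.  If all proper flats `Y` of `X` of rank `r_Y` and
multiplicity `d_Y` with `r_Y / d_Y ≤ r / d` contain one common hyperplane, then `-r / d` is a root
of the local Bernstein-Sato polynomial of `f` at the origin.
-/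

namespace Pool.Agent.helper14.Old.CommonHyperplane

open Pool.Agent.helper14.ND

/-- If the flats of the dense edge `X` of slope at least the slope of `X` have a common
hyperplane, every `b` in the local Bernstein ideal vanishes at `-r / d`. -/
theorem result {n : ℕ} {ι : Type*} [Fintype ι] [DecidableEq ι] (A : ι → Fin n → ℝ)
    (hA : ∀ i, A i ≠ 0) (mu : ι → ℕ) (hmu : ∀ i, 0 < mu i)
    (X : Finset ι) (hX : IsDenseEdge A X) (e : ι) (he : e ∈ X)
    (hcommon : ∀ Y ⊆ X, (∀ i ∈ X, A i ∈ Submodule.span ℝ (A '' (Y : Set ι)) → i ∈ Y) →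
      Y.Nonempty → Y ≠ X → (∑ i ∈ X, mu i) * rk A Y ≤ (∑ i ∈ Y, mu i) * rk A X → e ∈ Y)
    (b : Polynomial ℂ) (hb : IsBernstein (arrPolyMul A mu) b) :
    b.eval (-((rk A X : ℂ) / ((∑ i ∈ X, mu i : ℕ) : ℂ))) = 0 :=
  criterion A mu hmu hA hX he hcommon hb

end Pool.Agent.helper14.Old.CommonHyperplane
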