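import Pool.Agent.helper14.Newton.Defs
import Pool.Agent.helper14.NS.NonB1

/-!
# Roots of Bernstein-Sato polynomials of generic polynomials with a given Newton polyhedron

Arbitrary convenient Newton polyhedron, algebraically independent coefficients.
-/

open MvPolynomial Pool.Agent.helper14.Newton

namespace Pool.Agent.helper14.Old.GenericNewton

/-- Let `f` be convenient with `f(0) = 0` and with algebraically independent coefficients.  Let `w`
be a weight and `F` a set of `n` linearly independent exponents on the face of `w`, on which `w`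
takes the value `N > 0`.  If `F` is not `B1` then `- (∑ w i) / N` is a root of the local
Bernstein-Sato polynomial of `f` at `0`. -/
theorem result {n : ℕ} (hn : 0 < n) (f : MvPolynomial (Fin n) ℂ) (hconv : Convenient f)
    (h0 : coeff 0 f = 0)
    (hind : AlgebraicIndependent ℚ (fun v : f.support => coeff (v : Fin n →₀ ℕ) f))
    (w : Fin n → ℕ) (F : Finset (Fin n →₀ ℕ)) (hF : F ⊆ face f w) (hcard : F.card = n)
    (hli : Indep F) (hB : ¬ IsB1 F) (N : ℕ) (hN : ∀ v ∈ F, wt w v = N) (hN0 : 0 < N)
    (b : Polynomial ℂ) (hb : IsBernstein (fun z => eval z f) b) :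
    b.eval (-(((∑ i, w i : ℕ) : ℂ) / N)) = 0 := by
  classical
  obtain ⟨v₀, hv₀⟩ : F.Nonempty := Finset.card_pos.1 (by omega)
  have h1 : ∀ v ∈ F, v ∈ f.support ∧ ∀ u ∈ f.support, wt w v ≤ wt w u := fun v hv => by
    have := hF hv
    unfold face at this
    exact Finset.mem_filter.1 this
  refine Pool.Agent.helper14.NS.root_generic hn f (fun i => ?_) h0 hind w N (fun v hv => ?_) F
    (fun v hv => ⟨(h1 v hv).1, hN v hv⟩) hcard hli hB hN0 b hb
  · obtain ⟨m, hm⟩ := hconv i
    exact ⟨m, mem_support_iff.2 hm⟩
  · rw [← hN v₀ hv₀]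
    exact (h1 v₀ hv₀).2 v hv

end Pool.Agent.helper14.Old.GenericNewton
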