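import Mathlib
import Pool.Agent.helper14.NDDefs
import Pool.Agent.helper14.NDCriterion

/-!
# Bernstein-Sato roots at dense edges of rank at most four of real arrangements

Let `f` be the product of finitely many nonzero pairwise non-proportional linear forms with real
coefficients on `ℂ ^ n`.  For every dense edge of rank `r ≤ 4` contained in exactly `d` of the
hyperplanes, `-r / d` is a root of the local Bernstein-Sato polynomial of `f` at the origin.
-/

namespace Pool.Agent.helper14.Old.RealRankFour

open Pool.Agent.helper14.ND

/-- Main result: every `b` in the local Bernstein ideal at `0` of a reduced real central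
arrangement vanishes at `-r / d` for each dense edge of rank `r ≤ 4` lying on `d` hyperplanes. -/
theorem result {n : ℕ} {ι : Type*} [Fintype ι] [DecidableEq ι] (A : ι → Fin n → ℝ)
    (hA : ∀ i, A i ≠ 0) (hpar : ∀ i j, i ≠ j → ∀ c : ℝ, A i ≠ c • A j)
    (X : Finset ι) (hX : IsDenseEdge A X) (hr : rk A X ≤ 4)
    (b : Polynomial ℂ) (hb : IsBernstein (arrPoly A) b) :
    b.eval (-((rk A X : ℂ) / (X.card : ℂ))) = 0 :=
  rank_four A hA hpar hX hr hb

end Pool.Agent.helper14.Old.RealRankFour
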