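import Pool.Agent.helper14.Newton.Defs
import Pool.Agent.helper14.NS.ThmA

/-!
# Roots of Bernstein-Sato polynomials from the facets of a simplicial Newton boundary

Arbitrary coefficients, no nonresonance hypothesis.
-/

open MvPolynomial Pool.Agent.helper14.Newton

namespace Pool.Agent.helper14.Old.SimplicialNewton

/-- Let `f` be convenient and suppose that the exponents of `f` on every compact face of its Newton
polyhedron are linearly independent.  If `w` is a positive weight whose face is a facet which is
not `B1`, then `- (∑ w i) / N`, where `N` is the value of `w` on the facet, is a root of the local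
Bernstein-Sato polynomial of `f` at `0`. -/
theorem result {n : ℕ} (hn : 0 < n) (f : MvPolynomial (Fin n) ℂ) (hconv : Convenient f)
    (hsimp : ∀ w : Fin n → ℕ, (∀ i, 0 < w i) → Indep (face f w))
    (w : Fin n → ℕ) (hw : ∀ i, 0 < w i) (hcard : (face f w).card = n) (hB : ¬ IsB1 (face f w))
    (N : ℕ) (hN : ∀ v ∈ face f w, wt w v = N)
    (b : Polynomial ℂ) (hb : IsBernstein (fun z => eval z f) b) :
    b.eval (-(((∑ i, w i : ℕ) : ℂ) / N)) = 0 :=
  Pool.Agent.helper14.NS.root_simplicial hn f (fun i => by
    obtain ⟨m, hm⟩ := hconv i
    exact ⟨m, mem_support_iff.2 hm⟩) hsimp w hw hcard hB N hN b hb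

end Pool.Agent.helper14.Old.SimplicialNewton
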